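import Mathlib

set_option autoImplicit false

namespace Pool.Agent.Results.MP_e8f8b0_gt.CH

open Set Filter Topology Cardinal

/-- The bounding number. -/
noncomputable def bnum : Cardinal.{0} :=
  sInf {c | ∃ F : Set (ℕ → ℕ), (¬ ∃ g : ℕ → ℕ, ∀ f ∈ F, ∀ᶠ n in atTop, f n ≤ g n) ∧ #F = c}

def Hurewicz (Z : Type) [TopologicalSpace Z] : Prop :=
  ∀ U : ℕ → Set (Set Z), (∀ n, (∀ u ∈ U n, IsOpen u) ∧ ⋃₀ U n = Set.univ) →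
    ∃ F : ℕ → Set (Set Z), (∀ n, F n ⊆ U n ∧ (F n).Finite) ∧ ∀ z, ∀ᶠ n in atTop, z ∈ ⋃₀ F n

def Concentrated (κ : Cardinal.{0}) (X : Set (ℕ → Bool)) : Prop :=
  ∃ A ⊆ X, A.Countable ∧ κ ≤ #X ∧
    ∀ U : Set (ℕ → Bool), IsOpen U → A ⊆ U → #(X \ U : Set (ℕ → Bool)) < κ

theorem toK {Y : Set (ℕ → Bool)} (h : Hurewicz Y) (U : ℕ → Set (ℕ → Bool)) (hU : ∀ n, IsOpen (U n))
    (hY : ∀ n, Y ⊆ U n) : ∃ K : ℕ → Set (ℕ → Bool), (∀ n, IsClosed (K n) ∧ K n ⊆ U n) ∧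
      ∀ y ∈ Y, ∀ᶠ n in atTop, y ∈ K n := by
  obtain ⟨F, h1, h2⟩ := h (fun n => {u | IsOpen u ∧ closure (Subtype.val '' u) ⊆ U n}) fun n =>
    ⟨fun _ hu => hu.1, eq_univ_of_forall fun y => by
      obtain ⟨W, k1, k2, k3⟩ := exists_mem_nhds_isClosed_subset ((hU n).mem_nhds (hY n y.2))
      exact ⟨Subtype.val ⁻¹' interior W, ⟨isOpen_interior.preimage continuous_subtype_val,
        (closure_minimal ((image_preimage_subset _ _).trans interior_subset) k2).trans k3⟩,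
        mem_interior_iff_mem_nhds.2 k1⟩⟩
  refine ⟨fun n => ⋃ u ∈ F n, closure (Subtype.val '' u), fun n =>
    ⟨(h1 n).2.isClosed_biUnion fun _ _ => isClosed_closure,
      iUnion₂_subset fun u hu => ((h1 n).1 hu).2⟩, fun y hy => (h2 ⟨y, hy⟩).mono ?_⟩
  rintro n ⟨u, hu, h3⟩
  exact mem_iUnion₂.2 ⟨u, hu, subset_closure ⟨_, h3, rfl⟩⟩

theorem toL {Y : Set (ℕ → Bool)} (h : Hurewicz Y) {ι : Type} [Countable ι]
    (U : ι → Set (ℕ → Bool)) (hU : ∀ i, IsOpen (U i)) (hY : ∀ i, Y ⊆ U i) :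
    ∃ L : ℕ → Set (ℕ → Bool), (∀ n, IsClosed (L n) ∧ ∀ i, L n ⊆ U i) ∧
      ∀ y ∈ Y, ∀ᶠ n in atTop, y ∈ L n := by
  obtain ⟨e, he⟩ := exists_injective_nat ι
  obtain ⟨K, h1, h2⟩ := toK h (fun n => ⋂ i ∈ e ⁻¹' Iic n, U i)
    (fun n => ((finite_Iic n).preimage he.injOn).isOpen_biInter fun i _ => hU i)
    fun n => subset_iInter₂ fun i _ => hY i
  refine ⟨fun m => ⋂ n ≥ m, K n, fun m => ⟨isClosed_biInter fun n _ => (h1 n).1, fun i y hy =>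
    mem_iInter₂.1 ((h1 _).2 (mem_iInter₂.1 hy (max m (e i)) (le_max_left _ _))) i
      (le_max_right m (e i))⟩, fun y hy => ?_⟩
  obtain ⟨N, hN⟩ := eventually_atTop.1 (h2 y hy)
  filter_upwards [eventually_ge_atTop N] with m hm
  exact mem_iInter₂.2 fun n hn => hN n (hm.trans hn)

theorem tube {U : Set ((ℕ → Bool) × (ℕ → Bool))} (hU : IsOpen U) {L : Set (ℕ → Bool)}
    (hL : IsClosed L) : IsOpen {x | ∀ y ∈ L, (x, y) ∈ U} :=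
  isOpen_iff_mem_nhds.2 fun _ hx =>
    hL.isCompact.eventually_forall_of_forall_eventually fun y hy => hU.mem_nhds (hx y hy)

theorem result (h : continuum.{0} = aleph 1 ∨ bnum = aleph 1) (X : Set (ℕ → Bool))
    (hX : Hurewicz X) (hc : Concentrated bnum X) (Y : Set (ℕ → Bool)) (hY : Hurewicz Y) :
    Hurewicz (X × Y) := by
  have hb : bnum ≤ aleph 1 := by
    refine h.elim (fun h => csInf_le' ⟨Set.univ, fun ⟨g, hg⟩ => ?_, by simp [h]⟩) le_of_eq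
    simpa using (hg (fun n => g n + 1) trivial).exists
  obtain ⟨D, hD, hD', -, hc⟩ := hc
  intro 𝒰 h𝒰
  let j : X × Y → (ℕ → Bool) × (ℕ → Bool) := Prod.map Subtype.val Subtype.val
  have hj : IsInducing j := IsInducing.subtypeVal.prodMap IsInducing.subtypeVal
  let 𝒱 : ℕ → Set (Set ((ℕ → Bool) × (ℕ → Bool))) := fun n => {v | IsOpen v ∧ j ⁻¹' v ∈ 𝒰 n}
  have h1 : ∀ n, IsOpen (⋃₀ 𝒱 n) := fun n => isOpen_sUnion fun _ hv => hv.1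
  have h2 : ∀ n, ∀ x ∈ X, ∀ y ∈ Y, (x, y) ∈ ⋃₀ 𝒱 n := fun n x hx y hy => by
    obtain ⟨u, hu, h3⟩ := (h𝒰 n).2.ge (mem_univ (⟨x, hx⟩, ⟨y, hy⟩))
    obtain ⟨v, h4, rfl⟩ := hj.isOpen_iff.1 ((h𝒰 n).1 u hu)
    exact ⟨v, ⟨h4, hu⟩, h3⟩
  have h3 : ∀ A ⊆ X, A.Countable → ∃ L : ℕ → Set (ℕ → Bool), (∀ n, IsClosed (L n) ∧
      ∀ i, ∀ x ∈ A, ∀ y ∈ L n, (x, y) ∈ ⋃₀ 𝒱 i) ∧ ∀ y ∈ Y, ∀ᶠ n in atTop, y ∈ L n := by
    intro A hA hA'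
    have := hA'.to_subtype
    obtain ⟨L, k1, k2⟩ := toL hY (fun q : ℕ × A => Prod.mk q.2.1 ⁻¹' ⋃₀ 𝒱 q.1)
      (fun q => (h1 _).preimage (by fun_prop)) fun q y hy => h2 _ _ (hA q.2.2) y hy
    exact ⟨L, fun n => ⟨(k1 n).1, fun i x hx y hy => (k1 n).2 (i, ⟨x, hx⟩) hy⟩, k2⟩
  obtain ⟨L, k1, k2⟩ := h3 D hD hD'
  obtain ⟨M, k3, k4⟩ := h3 (⋃ n, X \ {x | ∀ y ∈ L n, (x, y) ∈ ⋃₀ 𝒱 n})
    (iUnion_subset fun _ => sdiff_subset) (countable_iUnion fun n => by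
      rw [← le_aleph0_iff_set_countable, ← Order.lt_succ_iff, succ_aleph0]
      exact (hc _ (tube (h1 n) (k1 n).1) ((k1 n).2 n)).trans_le hb)
  obtain ⟨K, k5, k6⟩ := toK hX (fun n => {x | ∀ y ∈ L n ∩ M n, (x, y) ∈ ⋃₀ 𝒱 n})
    (fun n => tube (h1 n) ((k1 n).1.inter (k3 n).1)) fun n x hx y hy => by
      by_cases h4 : ∀ y ∈ L n, (x, y) ∈ ⋃₀ 𝒱 n
      · exact h4 y hy.1
      · exact (k3 n).2 n x (mem_iUnion.2 ⟨n, hx, h4⟩) y hy.2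
  have h4 : ∀ n, ∃ S ⊆ 𝒱 n, S.Finite ∧ K n ×ˢ (L n ∩ M n) ⊆ ⋃ v ∈ S, v := fun n =>
    ((k5 n).1.prod ((k1 n).1.inter (k3 n).1)).isCompact.elim_finite_subcover_image
      (fun _ hv => hv.1) fun p hp => by
        rw [← sUnion_eq_biUnion]
        exact (k5 n).2 hp.1 p.2 hp.2
  choose S k7 k8 k9 using h4
  refine ⟨fun n => (j ⁻¹' ·) '' S n, fun n => ⟨?_, (k8 n).image _⟩, fun z => ?_⟩
  · rintro _ ⟨v, hv, rfl⟩
    exact (k7 n hv).2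
  · filter_upwards [k6 _ z.1.2, k2 _ z.2.2, k4 _ z.2.2] with n l1 l2 l3
    obtain ⟨v, hv, l4⟩ := mem_iUnion₂.1 (k9 n (a := j z) ⟨l1, l2, l3⟩)
    exact ⟨_, ⟨v, hv, rfl⟩, l4⟩

end Pool.Agent.Results.MP_e8f8b0_gt.CH
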